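import Mathlib

/-! Edge count of graphs with no `K_{t,t,t}`, from the minimum-degree Erdős–Stone theorem. -/

set_option autoImplicit false

namespace Pool.Agent.Lib.MP_087efe_co.DT

open Filter Finset SimpleGraph

theorem count {ε : ℝ} (hε : 0 < ε) (t : ℕ) : ∃ C : ℝ, ∀ (V : Type) (G : SimpleGraph V)
    [DecidableRel G.Adj], ¬ completeEquipartiteGraph 3 t ⊑ G → ∀ Y : Finset V,
      (∑ v ∈ Y, ∑ w ∈ Y, if G.Adj v w then (1 : ℝ) else 0) ≤
        (1 / 2 + ε) * (#Y * (#Y + 1)) + C := by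
  obtain ⟨N, hN⟩ := eventually_atTop.1
    (eventually_completeEquipartiteGraph_isContained_of_minDegree hε 2 t)
  refine ⟨(N + 1) ^ 2, fun V G _ hG Y => ?_⟩
  classical
  induction hn : #Y generalizing Y with
  | zero =>
    rw [card_eq_zero.1 hn]
    simp only [sum_empty]
    positivity
  | succ n ih =>
    by_cases hs : n + 1 < N
    · have h1 : (∑ v ∈ Y, ∑ w ∈ Y, if G.Adj v w then (1 : ℝ) else 0) ≤ ∑ v ∈ Y, ∑ w ∈ Y, 1 :=
        sum_le_sum fun v _ => sum_le_sum fun w _ => by split_ifs <;> norm_num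
      simp only [sum_const, nsmul_eq_mul, mul_one, hn] at h1
      have h2 : ((n + 1 : ℕ) : ℝ) ≤ N + 1 := by exact_mod_cast (by omega : n + 1 ≤ N + 1)
      have h3 : (0 : ℝ) ≤ ((n + 1 : ℕ) : ℝ) := Nat.cast_nonneg _
      have h4 : (0 : ℝ) ≤ (1 / 2 + ε) * (((n + 1 : ℕ) : ℝ) * (((n + 1 : ℕ) : ℝ) + 1)) := by
        positivity
      nlinarith
    · let e : Fin (n + 1) ≃ Y := (Y.equivFinOfCardEq hn).symm
      let f : Fin (n + 1) ↪ V := e.toEmbedding.trans (Function.Embedding.subtype _)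
      let G' : SimpleGraph (Fin (n + 1)) := G.comap f
      have h1 : ¬ (G'.minDegree : ℝ) ≥ (1 - 1 / (2 : ℕ) + ε) * (n + 1 : ℕ) := fun hh =>
        hG ((hN (n + 1) (not_lt.1 hs) hh).trans (Embedding.comap f G).isContained)
      obtain ⟨i, hi⟩ := G'.exists_minimal_degree_vertex
      rw [hi, G'.degree_eq_sum_if_adj] at h1
      have h2 : (∑ j : Fin (n + 1), if G'.Adj i j then (1 : ℝ) else 0) =
          ∑ w ∈ Y, if G.Adj (f i) w then (1 : ℝ) else 0 := by
        rw [← sum_coe_sort Y, ← e.sum_comp]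
        refine sum_congr rfl fun j _ => ?_
        exact if_congr Iff.rfl rfl rfl
      rw [h2] at h1
      have hv : f i ∈ Y := (e i).2
      generalize f i = v at h1 hv
      obtain ⟨Z, hZ, rfl⟩ : ∃ Z, v ∉ Z ∧ Y = insert v Z :=
        ⟨Y.erase v, notMem_erase _ _, (insert_erase hv).symm⟩
      have h3 := ih Z (by rw [card_insert_of_notMem hZ] at hn; omega)
      have h4 : (∑ u ∈ Z, if G.Adj u v then (1 : ℝ) else 0) =
          ∑ u ∈ Z, if G.Adj v u then (1 : ℝ) else 0 :=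
        sum_congr rfl fun u _ => by simp only [G.adj_comm]
      simp only [sum_insert hZ, sum_add_distrib, G.irrefl, if_false, zero_add, h4] at h1 ⊢
      push_cast at h1 ⊢
      nlinarith

end Pool.Agent.Lib.MP_087efe_co.DT
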