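import Pool.Agent.Lib.MP_087efe_co.Defs

/-! Geometric deep vertex truncations of 4-polytopes. -/

namespace Pool.Agent.Lib.MP_087efe_co

/-- `f` is an affine function on `ℝ⁴`. -/
def IsAffineFun (f : EuclideanSpace ℝ (Fin 4) → ℝ) : Prop :=
  ∃ g : EuclideanSpace ℝ (Fin 4) →ᵃ[ℝ] ℝ, ∀ x, f x = g x

/-- `v, w ∈ X` and the segment `[v, w]` is a 1-face of `conv X`. -/
def IsEdge (X : Finset (EuclideanSpace ℝ (Fin 4))) (v w : EuclideanSpace ℝ (Fin 4)) : Prop :=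
  v ∈ X ∧ w ∈ X ∧ IsFace (convexHull ℝ (X : Set (EuclideanSpace ℝ (Fin 4)))) (segment ℝ v w) 1

/-- `p` is a point of `[v, w]` where `h v` and `h w` vanish. -/
def OnCut (h : EuclideanSpace ℝ (Fin 4) → EuclideanSpace ℝ (Fin 4) → ℝ)
    (v w p : EuclideanSpace ℝ (Fin 4)) : Prop :=
  p ∈ segment ℝ v w ∧ h v p = 0 ∧ h w p = 0

/-- `P` is a deep vertex truncation of the 4-polytope `Q = conv X`: the affine function `h v` cuts
off the vertex `v` only, on each edge `[v, w]` of `Q` the hyperplanes of `v` and `w` pass through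
the same point, and `P` is the convex hull of these points. -/
def IsDeepTruncation (P : Set (EuclideanSpace ℝ (Fin 4))) : Prop :=
  ∃ (X : Finset (EuclideanSpace ℝ (Fin 4)))
    (h : EuclideanSpace ℝ (Fin 4) → EuclideanSpace ℝ (Fin 4) → ℝ),
    IsPolytope (convexHull ℝ (X : Set (EuclideanSpace ℝ (Fin 4)))) ∧ (∀ v, IsAffineFun (h v)) ∧
    (∀ v ∈ X, 0 < h v v) ∧ (∀ v ∈ X, ∀ w ∈ X, v ≠ w → h v w < 0) ∧
    (∀ v w, IsEdge X v w → ∃ p, OnCut h v w p) ∧
    P = convexHull ℝ {p | ∃ v w, IsEdge X v w ∧ OnCut h v w p}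

end Pool.Agent.Lib.MP_087efe_co
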