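import Pool.Agent.Lib.MP_087efe_co.DT.Rank
import Pool.Agent.Lib.MP_087efe_co.DT.Count

/-! The graph of pairs of vertices whose cutting hyperplanes meet on the segment between them. -/

set_option autoImplicit false

namespace Pool.Agent.Lib.MP_087efe_co.DT

open Finset SimpleGraph Matrix

/-- Homogeneous coordinates of a point of `ℝ⁴`. -/
def hom (w : EuclideanSpace ℝ (Fin 4)) : Fin 5 → ℝ := Fin.cons 1 fun i => w i

theorem exists_coef (f : EuclideanSpace ℝ (Fin 4) →ᵃ[ℝ] ℝ) :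
    ∃ c : Fin 5 → ℝ, ∀ w, c ⬝ᵥ hom w = f w := by
  refine ⟨Fin.cons (f 0) fun i => f.linear (EuclideanSpace.basisFun (Fin 4) ℝ i), fun w => ?_⟩
  have h1 : f w = f.linear w + f 0 := by simpa using f.map_vadd 0 w
  have h2 : f.linear w = ∑ i, w i * f.linear (EuclideanSpace.basisFun (Fin 4) ℝ i) := by
    conv_lhs => rw [← (EuclideanSpace.basisFun (Fin 4) ℝ).sum_repr w]
    simp only [map_sum, map_smul, smul_eq_mul, EuclideanSpace.basisFun_repr]
  rw [h1, h2, dotProduct, Fin.sum_univ_succ]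
  simp only [hom, Fin.cons_zero, Fin.cons_succ, mul_one, mul_comm]
  ring

theorem prod_eq {f g : EuclideanSpace ℝ (Fin 4) →ᵃ[ℝ] ℝ} {v w p : EuclideanSpace ℝ (Fin 4)}
    (h1 : 0 < f v) (h2 : f w < 0) (hp : p ∈ segment ℝ v w) (e1 : f p = 0) (e2 : g p = 0) :
    f w * g v = f v * g w := by
  rw [segment_eq_image_lineMap] at hp
  obtain ⟨s, -, rfl⟩ := hp
  rw [AffineMap.apply_lineMap, AffineMap.lineMap_apply_ring] at e1 e2
  linear_combination (g v - g w) * e1 - (f v - f w) * e2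

/-- Two points of `X` are joined when the product of the cross values is that of the own values. -/
def tang (X : Finset (EuclideanSpace ℝ (Fin 4)))
    (h : EuclideanSpace ℝ (Fin 4) → EuclideanSpace ℝ (Fin 4) →ᵃ[ℝ] ℝ) :
    SimpleGraph (EuclideanSpace ℝ (Fin 4)) where
  Adj v w := v ∈ X ∧ w ∈ X ∧ v ≠ w ∧ h v w * h w v = h v v * h w w
  symm := ⟨fun _ _ ⟨a, b, c, d⟩ => ⟨b, a, c.symm, by linarith⟩⟩
  loopless := ⟨fun _ ⟨_, _, c, _⟩ => c rfl⟩

theorem free : ∃ t : ℕ, ∀ (X : Finset (EuclideanSpace ℝ (Fin 4)))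
    (h : EuclideanSpace ℝ (Fin 4) → EuclideanSpace ℝ (Fin 4) →ᵃ[ℝ] ℝ),
    (∀ v ∈ X, 0 < h v v) → (∀ v ∈ X, ∀ w ∈ X, v ≠ w → h v w < 0) →
      ¬ completeEquipartiteGraph 3 t ⊑ tang X h := by
  obtain ⟨t, ht⟩ := exists_bound
  refine ⟨t + 1, fun X h hd ho ⟨φ⟩ => ?_⟩
  choose c hc using fun v => exists_coef (h v)
  let x : Fin 3 → ℕ → EuclideanSpace ℝ (Fin 4) := fun A a => φ (A, Fin.ofNat (t + 1) a)
  have adj : ∀ A B, A ≠ B → ∀ a b, (tang X h).Adj (x A a) (x B b) := fun A B AB a b =>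
    φ.toHom.map_adj (completeEquipartiteGraph_adj.2 AB)
  have mem : ∀ A a, x A a ∈ X := fun A a => by
    obtain ⟨B, hB⟩ := exists_ne A
    exact (adj A B hB.symm a a).1
  have dot : ∀ v w, ((h v v)⁻¹ • c v) ⬝ᵥ hom w = (h v v)⁻¹ * h v w := fun v w => by
    rw [smul_dotProduct, hc, smul_eq_mul]
  refine ht (fun A a => (h (x A a) (x A a))⁻¹ • c (x A a)) (fun A a => hom (x A a))
    (fun A a _ => ?_) (fun A a ha b hb ab => ?_) (fun A B AB a _ b _ => ?_)
  · rw [dot]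
    exact mul_pos (inv_pos.2 (hd _ (mem A a))) (hd _ (mem A a))
  · rw [dot]
    refine mul_neg_of_pos_of_neg (inv_pos.2 (hd _ (mem A a)))
      (ho _ (mem A a) _ (mem A b) fun e => ab ?_)
    have := congrArg (fun z => (z.2 : ℕ)) (φ.injective e)
    simpa [Nat.mod_eq_of_lt (Nat.lt_succ_of_lt ha), Nat.mod_eq_of_lt (Nat.lt_succ_of_lt hb)]
      using this
  · rw [dot, dot]
    have e := (adj A B AB a b).2.2.2
    have p1 := (hd _ (mem A a)).ne'
    have p2 := (hd _ (mem B b)).ne'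
    field_simp
    linarith

end Pool.Agent.Lib.MP_087efe_co.DT
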