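import Pool.Agent.Lib.MP_087efe_co.DT.Lat

/-! The edges of a deep vertex truncation come from flags (vertex, 2-face) of the polytope. -/

set_option autoImplicit false

namespace Pool.Agent.Lib.MP_087efe_co.DT

open KHPoly KHPoly.GPoly Finset

variable {E : Type} [NormedAddCommGroup E] [NormedSpace ℝ E] [FiniteDimensional ℝ E]
  [DecidableEq E]

/-- The data of a deep vertex truncation in homogeneous form. -/
structure Cfg (X : Finset E) (H : E → ℝ × E →ₗ[ℝ] ℝ) (T : E → E → Prop) (π : E → E → E)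
    (S : Finset E) : Prop where
  hd : ∀ v ∈ X, 0 < H v (1, v)
  ho : ∀ v ∈ X, ∀ w ∈ X, v ≠ w → H v (1, w) < 0
  mem : ∀ v w, T v w → v ∈ X ∧ w ∈ X ∧ v ≠ w
  symm : ∀ v w, T v w → T w v ∧ π w v = π v w
  zero : ∀ v w, T v w → H v (1, π v w) = 0
  seg : ∀ v w, T v w → ∃ s : ℝ, 0 < s ∧ s < 1 ∧
    ∀ l : ℝ × E →ₗ[ℝ] ℝ, l (1, π v w) = (1 - s) * l (1, v) + s * l (1, w)
  edge : ∀ a b : X, a ≠ b → KHPoly.IsFace (vv X) {a, b} → T a b
  pt : ∀ p, p ∈ S ↔ ∃ v w, T v w ∧ p = π v w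

namespace Cfg

variable {X : Finset E} {H : E → ℝ × E →ₗ[ℝ] ℝ} {T : E → E → Prop} {π : E → E → E} {S : Finset E}

omit [FiniteDimensional ℝ E] in
theorem zero' (c : Cfg X H T π S) {v w : E} (t : T v w) : H w (1, π v w) = 0 := by
  rw [← (c.symm v w t).2]; exact c.zero w v (c.symm v w t).1

omit [FiniteDimensional ℝ E] in
theorem k1 (c : Cfg X H T π S) {v w u : E} (t : T v w) (hu : u ∈ X) :
    H u (1, π v w) ≤ 0 ∧ (H u (1, π v w) = 0 → u = v ∨ u = w) := by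
  by_cases h1 : u = v
  · exact ⟨h1 ▸ (c.zero _ w (h1 ▸ t)).le, fun _ => Or.inl h1⟩
  by_cases h2 : u = w
  · exact ⟨h2 ▸ (c.zero' (h2 ▸ t)).le, fun _ => Or.inr h2⟩
  obtain ⟨s, s0, s1, hs⟩ := c.seg v w t
  have a1 := mul_neg_of_pos_of_neg (sub_pos.2 s1) (c.ho u hu v (c.mem v w t).1 h1)
  have a2 := mul_neg_of_pos_of_neg s0 (c.ho u hu w (c.mem v w t).2.1 h2)
  rw [hs]
  exact ⟨by linarith, fun h => by linarith⟩

omit [FiniteDimensional ℝ E] in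
theorem k2 (c : Cfg X H T π S) {v w p : E} (t : T v w) (hp : p ∈ S) (h1 : H v (1, p) = 0)
    (h2 : H w (1, p) = 0) : p = π v w := by
  obtain ⟨a, b, t', rfl⟩ := (c.pt p).1 hp
  obtain ⟨hv, hw, vw⟩ := c.mem v w t
  rcases (c.k1 t' hv).2 h1 with rfl | rfl <;> rcases (c.k1 t' hw).2 h2 with rfl | rfl
  · exact absurd rfl vw
  · rfl
  · exact (c.symm _ _ t).2
  · exact absurd rfl vw

omit [FiniteDimensional ℝ E] in
theorem k3 (c : Cfg X H T π S) {p u : E} (hp : p ∈ S) (hu : u ∈ X) : H u (1, p) ≤ 0 := by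
  obtain ⟨a, b, t, rfl⟩ := (c.pt p).1 hp
  exact (c.k1 t hu).1

omit [FiniteDimensional ℝ E] in
theorem lam (c : Cfg X H T π S) (a : X) : ∃ l : ℝ × E →ₗ[ℝ] ℝ, l (1, a.1) = 0 ∧
    ∀ x ∈ X, x ≠ a → 0 < l (1, x) := by
  refine ⟨H a (1, a.1) • LinearMap.fst ℝ ℝ E - H a, by simp, fun x hx xa => ?_⟩
  have := c.hd a a.2
  have := c.ho a a.2 x hx xa.symm
  simp only [LinearMap.sub_apply, LinearMap.smul_apply, LinearMap.fst_apply, smul_eq_mul]
  linarith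

omit [FiniteDimensional ℝ E] in
theorem single (c : Cfg X H T π S) (a : X) : KHPoly.IsFace (vv X) {a} := by
  obtain ⟨l, l0, l1⟩ := c.lam a
  refine ⟨l, fun i => ?_, fun i => ?_⟩
  · by_cases h : i = a
    · rw [h]; exact l0.ge
    · exact (l1 i i.2 fun e => h (Subtype.ext e)).le
  · rw [mem_singleton]
    refine ⟨fun h => by rw [h]; exact l0, fun h => ?_⟩
    by_contra hn
    exact (l1 i i.2 fun e => hn (Subtype.ext e)).ne' h

omit [FiniteDimensional ℝ E] in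
theorem singleS (c : Cfg X H T π S) (a : S) : KHPoly.IsFace (vv S) {a} := by
  obtain ⟨v, w, t, ha⟩ := (c.pt a).1 a.2
  obtain ⟨hv, hw, -⟩ := c.mem v w t
  refine ⟨-(H v + H w), fun i => ?_, fun i => ?_⟩
  · have := c.k3 i.2 hv
    have := c.k3 i.2 hw
    simp only [vv, LinearMap.neg_apply, LinearMap.add_apply]
    linarith
  · have := c.k3 i.2 hv
    have := c.k3 i.2 hw
    simp only [vv, LinearMap.neg_apply, LinearMap.add_apply, mem_singleton]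
    refine ⟨fun h => ?_, fun h => Subtype.ext ?_⟩
    · rw [h, ha, c.zero v w t, c.zero' t]; simp
    · rw [ha]; exact c.k2 t i.2 (by linarith) (by linarith)

/-- The vertex `a` as a face. -/
def sg (c : Cfg X H T π S) (a : X) : Face (vv X) := ⟨{a}, c.single a⟩

theorem rk_sg (c : Cfg X H T π S) (a : X) : rk (vv X) (c.sg a) = 1 := rk_single _ rfl

theorem atom (c : Cfg X H T π S) {a : X} {G Z : Face (vv X)}
    (hZ : Z ∈ lev (rk (vv X)) (c.sg a) G 2) : ∃ b : X, b ∈ G.1 ∧ T a b ∧ Z.1 = {a, b} := by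
  obtain ⟨h1, h2, h3⟩ := mem_lev.1 hZ
  obtain ⟨b, ba, e⟩ := edge_form c.single Z h3 (h1 (mem_singleton_self a))
  exact ⟨b, h2 (by rw [e]; simp), c.edge a b ba.symm (e ▸ Z.2), e⟩

theorem atoms (c : Cfg X H T π S) (a : X) (G : Face (vv X)) (W : Finset E)
    (hW : ∀ b : X, b ∈ G.1 → T a b → π a b ∈ W) :
    (lev (rk (vv X)) (c.sg a) G 2).card ≤ W.card := by
  have : Nonempty X := ⟨a⟩
  choose! f f1 f2 f3 using fun Z (hZ : Z ∈ lev (rk (vv X)) (c.sg a) G 2) => c.atom hZ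
  refine card_le_card_of_injOn (fun Z => π a (f Z)) (fun Z hZ => hW _ (f1 Z hZ) (f2 Z hZ))
    fun Z hZ Y hY e => Subtype.ext ?_
  have e' : π a (f Z) = π a (f Y) := e
  have h1 := c.zero' (f2 Z hZ)
  rw [e'] at h1
  rcases (c.k1 (f2 Y hY) (f Z).2).2 h1 with h | h
  · exact absurd h.symm (c.mem _ _ (f2 Z hZ)).2.2
  · rw [f3 Z hZ, f3 Y hY, Subtype.ext h]

theorem simplex (c : Cfg X H T π S) (a : X) (g : ℝ × E →ₗ[ℝ] ℝ) (g0 : g (1, a.1) = 0)
    (g1 : ∀ w, T a w → 0 ≤ g (1, w)) : ∀ x ∈ X, 0 ≤ g (1, x) := by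
  intro u hu
  by_contra hn
  have hn' := not_le.1 hn
  obtain ⟨l, l0, l1⟩ := c.lam a
  have ua : u ≠ a := fun e => by rw [e, g0] at hn'; exact lt_irrefl _ hn'
  obtain ⟨b, hb, hm⟩ := exists_min_image (X.erase a) (fun y => g (1, y) / l (1, y))
    ⟨u, mem_erase.2 ⟨ua, hu⟩⟩
  obtain ⟨ba, hb⟩ := mem_erase.1 hb
  have r0 : g (1, b) / l (1, b) < 0 :=
    (hm u (mem_erase.2 ⟨ua, hu⟩)).trans_lt (div_neg_of_neg_of_pos hn' (l1 u hu ua))
  obtain ⟨G, hG⟩ := zero_face (s := X) (g - (g (1, b) / l (1, b)) • l) fun x hx => by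
    simp only [LinearMap.sub_apply, LinearMap.smul_apply, smul_eq_mul]
    by_cases xa : x = a
    · rw [xa, g0, l0]; simp
    · exact sub_nonneg.2 ((le_div_iff₀ (l1 x hx xa)).1 (hm x (mem_erase.2 ⟨xa, hx⟩)))
  simp only [LinearMap.sub_apply, LinearMap.smul_apply, smul_eq_mul] at hG
  have aG : c.sg a ≤ G := singleton_subset_iff.2 ((hG a).2 (by rw [g0, l0]; simp))
  have bG : (⟨b, hb⟩ : X) ∈ G.1 := (hG _).2 (by rw [div_mul_cancel₀ _ (l1 b hb ba).ne', sub_self])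
  have lt : c.sg a < G := lt_of_le_of_ne aG fun e => by
    rw [← e] at bG
    exact ba (congrArg Subtype.val (mem_singleton.1 bG))
  have h1 := (fl X).mono _ _ lt
  rw [c.rk_sg] at h1
  obtain ⟨Z, hZ⟩ := LBasic.ex_lev (fl X) _ _ 2 aG (by rw [c.rk_sg]; omega) h1
  obtain ⟨w, w1, w2, -⟩ := c.atom hZ
  have h2 := (hG w).1 w1
  have h3 := mul_neg_of_neg_of_pos r0 (l1 w w.2 (c.mem _ _ w2).2.2.symm)
  linarith [g1 w w2]

theorem rank_le (c : Cfg X H T π S) (a : X) (G : Face (vv X)) (ha : a ∈ G.1) (W : Finset E)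
    (hW : ∀ b : X, b ∈ G.1 → T a b → π a b ∈ W) : rk (vv X) G ≤ W.card + 1 := by
  have h1 := (basicS _ _ (fl X)).atoms_ge (c.sg a) G (singleton_subset_iff.2 ha)
  rw [c.rk_sg] at h1
  exact h1.trans (Nat.add_le_add_right (c.atoms a G W hW) 1)

theorem three_le (c : Cfg X H T π S) (G : Face (vv X)) {a b d : X} (ha : a ∈ G.1) (hb : b ∈ G.1)
    (hd : d ∈ G.1) (ab : a ≠ b) (ad : a ≠ d) (bd : b ≠ d) : 3 ≤ rk (vv X) G := by
  by_contra hn
  have h1 := card_le_two c.single G (by omega)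
  have h2 := two_lt_card_iff.2 ⟨a, b, d, ha, hb, hd, ab, ad, bd⟩
  omega

theorem flag (c : Cfg X H T π S) (l : ℝ × E →ₗ[ℝ] ℝ) (l0 : ∀ p ∈ S, 0 ≤ l (1, p)) {p q : E}
    (pq : p ≠ q) (hp : p ∈ S) (hq : q ∈ S) (hz : ∀ x ∈ S, l (1, x) = 0 ↔ x = p ∨ x = q) :
    ∃ (a : X) (G : Face (vv X)), a ∈ G.1 ∧ rk (vv X) G = 3 ∧
      ∀ x, (∃ b : X, b ∈ G.1 ∧ T a b ∧ x = π a b) ↔ x = p ∨ x = q := by
  have hS : ∀ {v w}, T v w → π v w ∈ S := fun t => (c.pt _).2 ⟨_, _, t, rfl⟩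
  have ends : ∀ (g : ℝ × E →ₗ[ℝ] ℝ), (∀ x ∈ X, 0 ≤ g (1, x)) → ∀ {v w}, T v w →
      0 ≤ g (1, π v w) ∧ (g (1, π v w) = 0 ↔ g (1, v) = 0 ∧ g (1, w) = 0) := fun g g0 v w t => by
    obtain ⟨s, s0, s1, hs⟩ := c.seg v w t
    have a1 := g0 v (c.mem v w t).1
    have a2 := g0 w (c.mem v w t).2.1
    have a3 := mul_nonneg (sub_pos.2 s1).le a1
    have a4 := mul_nonneg s0.le a2
    rw [hs]
    refine ⟨by linarith, fun h => ⟨?_, ?_⟩, fun h => by rw [h.1, h.2]; simp⟩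
    · exact (mul_eq_zero.1 (by linarith : (1 - s) * g (1, v) = 0)).resolve_left (sub_pos.2 s1).ne'
    · exact (mul_eq_zero.1 (by linarith : s * g (1, w) = 0)).resolve_left s0.ne'
  by_cases hX : ∀ x ∈ X, 0 ≤ l (1, x)
  · exfalso
    obtain ⟨G, hG⟩ := zero_face l hX
    obtain ⟨v, w, t, rfl⟩ := (c.pt q).1 hq
    obtain ⟨hv, hw, vw⟩ := c.mem v w t
    obtain ⟨a, b, t', rfl, ha⟩ : ∃ a b, T a b ∧ p = π a b ∧ H a (1, π v w) ≠ 0 := by
      obtain ⟨a, b, t', rfl⟩ := (c.pt p).1 hp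
      by_cases h : H a (1, π v w) = 0
      · exact ⟨b, a, (c.symm _ _ t').1, (c.symm _ _ t').2.symm,
          fun h' => pq (c.k2 t' hq h h').symm⟩
      · exact ⟨a, b, t', rfl, h⟩
    have aX := (c.mem a b t').1
    have z1 := (ends l hX t').2.1 ((hz _ hp).2 (Or.inl rfl))
    have z2 := (ends l hX t).2.1 ((hz _ hq).2 (Or.inr rfl))
    have h1 := c.three_le G (a := ⟨a, aX⟩) (b := ⟨v, hv⟩) (d := ⟨w, hw⟩) ((hG _).2 z1.1)
      ((hG _).2 z2.1) ((hG _).2 z2.2)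
      (fun e => ha (by rw [show a = v from congrArg Subtype.val e]; exact c.zero v w t))
      (fun e => ha (by rw [show a = w from congrArg Subtype.val e]; exact c.zero' t))
      (fun e => vw (congrArg Subtype.val e))
    have h2 := c.rank_le ⟨a, aX⟩ G ((hG _).2 z1.1) {π a b} fun d hd td => by
      rcases (hz _ (hS td)).1 ((ends l hX td).2.2 ⟨z1.1, (hG d).1 hd⟩) with h | h
      · exact mem_singleton.2 h
      · exact absurd (h ▸ c.zero _ _ td) ha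
    rw [card_singleton] at h2
    omega
  push Not at hX
  obtain ⟨v, hv, lv⟩ := hX
  have hv0 := c.hd v hv
  have k0 : 0 < -l (1, v) / H v (1, v) := div_pos (by linarith) hv0
  let g : ℝ × E →ₗ[ℝ] ℝ := l + (-l (1, v) / H v (1, v)) • H v
  have hg : ∀ x, g (1, x) = l (1, x) + -l (1, v) / H v (1, v) * H v (1, x) := fun x => rfl
  have gv : g (1, v) = 0 := by rw [hg, div_mul_cancel₀ _ hv0.ne']; ring
  have gp : ∀ {w}, T v w → g (1, π v w) = l (1, π v w) := fun t => by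
    rw [hg, c.zero _ _ t]; ring
  have gX : ∀ x ∈ X, 0 ≤ g (1, x) := c.simplex ⟨v, hv⟩ g gv fun w t => by
    obtain ⟨s, s0, -, hs⟩ := c.seg v w t
    have h1 := l0 _ (hS t)
    rw [← gp t, hs, gv, mul_zero, zero_add] at h1
    exact nonneg_of_mul_nonneg_right h1 s0
  obtain ⟨G, hG⟩ := zero_face g gX
  have fw : ∀ b : X, b ∈ G.1 → T v b → π v b = p ∨ π v b = q := fun b hb t =>
    (hz _ (hS t)).1 (by rw [← gp t]; exact (ends g gX t).2.2 ⟨gv, (hG b).1 hb⟩)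
  have bw : ∀ x ∈ S, x = p ∨ x = q → ∃ b : X, b ∈ G.1 ∧ T v b ∧ x = π v b := fun x hx h => by
    have h1 := (hz x hx).2 h
    obtain ⟨b, t, rfl⟩ : ∃ b, T v b ∧ x = π v b := by
      obtain ⟨a, b, t, rfl⟩ := (c.pt x).1 hx
      have h2 := (ends g gX t).1
      have h3 := (c.k1 t hv).1
      rw [hg, h1, zero_add] at h2
      rcases (c.k1 t hv).2 (le_antisymm h3 (nonneg_of_mul_nonneg_right h2 k0)) with rfl | rfl
      · exact ⟨b, t, rfl⟩
      · exact ⟨a, (c.symm _ _ t).1, (c.symm _ _ t).2.symm⟩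
    exact ⟨⟨b, (c.mem _ _ t).2.1⟩, (hG _).2 ((ends g gX t).2.1 (by rw [gp t, h1])).2, t, rfl⟩
  have vG : (⟨v, hv⟩ : X) ∈ G.1 := (hG _).2 gv
  refine ⟨⟨v, hv⟩, G, vG, le_antisymm ?_ ?_, fun x => ⟨?_, fun h => ?_⟩⟩
  · have := c.rank_le ⟨v, hv⟩ G vG {p, q} fun b hb t => by simpa using fw b hb t
    rwa [card_pair pq] at this
  · obtain ⟨b, b1, b2, b3⟩ := bw p hp (Or.inl rfl)
    obtain ⟨d, d1, d2, d3⟩ := bw q hq (Or.inr rfl)
    exact c.three_le G vG b1 d1 (fun e => (c.mem _ _ b2).2.2 (congrArg Subtype.val e))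
      (fun e => (c.mem _ _ d2).2.2 (congrArg Subtype.val e)) fun e => pq (by rw [b3, d3, e])
  · rintro ⟨b, b1, b2, rfl⟩
    exact fw b b1 b2
  · exact bw x (by rcases h with rfl | rfl <;> assumption) h

end Cfg

end Pool.Agent.Lib.MP_087efe_co.DT
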