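import Pool.Agent.Lib.MP_087efe_co.DT.Defs
import Pool.Agent.Lib.MP_087efe_co.DT.Trunc
import Pool.Agent.Lib.MP_087efe_co.DT.Tangent

/-! Vertices and edges of a deep vertex truncation. -/

set_option autoImplicit false

namespace Pool.Agent.Lib.MP_087efe_co.DT

open KHPoly hiding IsFace
open KHPoly.GPoly Finset

variable [DecidableEq (EuclideanSpace ℝ (Fin 4))]
  {X : Finset (EuclideanSpace ℝ (Fin 4))}
  {H : EuclideanSpace ℝ (Fin 4) → ℝ × EuclideanSpace ℝ (Fin 4) →ₗ[ℝ] ℝ}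
  {T : EuclideanSpace ℝ (Fin 4) → EuclideanSpace ℝ (Fin 4) → Prop}
  {π : EuclideanSpace ℝ (Fin 4) → EuclideanSpace ℝ (Fin 4) → EuclideanSpace ℝ (Fin 4)}
  {S : Finset (EuclideanSpace ℝ (Fin 4))}

theorem Cfg.f0 (c : Cfg X H T π S) :
    fnum (convexHull ℝ (S : Set (EuclideanSpace ℝ (Fin 4)))) 0 = S.card := by
  have : {F | IsFace (convexHull ℝ (S : Set (EuclideanSpace ℝ (Fin 4)))) F 0} =
      (fun p => {p}) '' (S : Set (EuclideanSpace ℝ (Fin 4))) := by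
    ext F
    constructor
    · rintro ⟨h1, h2, h3⟩
      obtain ⟨Z, ⟨a, ha⟩, e, hr⟩ := of_exposed h1 h2
      have h4 := LBasic.eq_of (fl S) ⟨{a}, c.singleS a⟩ Z (singleton_subset_iff.2 ha)
        (by rw [rk_single ⟨{a}, c.singleS a⟩ rfl]; omega)
      refine ⟨a, a.2, ?_⟩
      rw [e, ← h4]
      simp [pts]
    · rintro ⟨p, hp, rfl⟩
      have h1 := exposed (c.singleS ⟨p, hp⟩)
      simp only [pts, coe_singleton, Set.image_singleton, convexHull_singleton] at h1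
      exact ⟨h1, Set.singleton_nonempty p, by simp⟩
  rw [fnum, this, Set.ncard_image_of_injective _ Set.singleton_injective, Set.ncard_coe_finset]

theorem Cfg.f1 (c : Cfg X H T π S) (hX : affineSpan ℝ (X : Set (EuclideanSpace ℝ (Fin 4))) = ⊤) :
    fnum (convexHull ℝ (S : Set (EuclideanSpace ℝ (Fin 4)))) 1 + 6 * X.card ≤ 6 * S.card := by
  classical
  let t : Face (vv X) := ⟨univ, face_univ X⟩
  have ht : ∀ x, x ≤ t := fun x => subset_univ _
  have rt : rk (vv X) t = 5 := by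
    obtain ⟨x, hx⟩ := AffineSubspace.nonempty_of_affineSpan_eq_top _ _ _ hX
    have h2 : pts t.1 = (X : Set _) :=
      Set.Subset.antisymm (pts_subset _) fun y hy => (mem_pts (x := ⟨y, hy⟩)).2 (mem_univ _)
    rw [rk_eq t ⟨⟨x, hx⟩, mem_univ _⟩, h2, affineSpan_convexHull, hX,
      AffineSubspace.direction_top, finrank_top, finrank_euclideanSpace_fin]
  have h1 : fnum (convexHull ℝ (S : Set (EuclideanSpace ℝ (Fin 4)))) 1 ≤
      ∑ a : X, (lev (rk (vv X)) (c.sg a) t 3).card := by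
    rw [← card_sigma]
    refine le_trans ?_ (card_image_le (f := fun z : (_ : X) × Face (vv X) =>
      convexHull ℝ {x | ∃ b : X, b ∈ z.2.1 ∧ T z.1 b ∧ x = π z.1 b}))
    rw [← Set.ncard_coe_finset]
    refine Set.ncard_le_ncard (fun F hF => ?_) (finite_toSet _)
    obtain ⟨h1, h2, h3⟩ := hF
    obtain ⟨Z, ⟨p, hp⟩, e, hr⟩ := of_exposed h1 h2
    obtain ⟨q, qp, eZ⟩ := edge_form c.singleS Z (by omega) hp
    obtain ⟨l, l0, l1⟩ := Z.2
    obtain ⟨a, G, aG, rG, hG⟩ := c.flag l (fun x hx => l0 ⟨x, hx⟩) (p := p) (q := q)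
      (fun e => qp (Subtype.ext e.symm)) p.2 q.2 fun x hx => by
        have := l1 ⟨x, hx⟩
        rw [eZ, mem_insert, mem_singleton, Subtype.ext_iff, Subtype.ext_iff] at this
        exact this.symm
    refine mem_coe.2 (mem_image.2 ⟨⟨a, G⟩, mem_sigma.2 ⟨mem_univ _,
      mem_lev.2 ⟨singleton_subset_iff.2 aG, ht G, rG⟩⟩, ?_⟩)
    rw [e, eZ]
    congr 1
    ext x
    rw [Set.mem_ofPred_eq, hG]
    simp [pts, eq_comm]
  have h2 : ∑ a : X, (lev (rk (vv X)) (c.sg a) t 2).card ≤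
      ∑ a : X, (S.filter fun p => H a (1, p) = 0).card :=
    sum_le_sum fun a _ => c.atoms a t _ fun b _ tb =>
      mem_filter.2 ⟨(c.pt _).2 ⟨_, _, tb, rfl⟩, c.zero _ _ tb⟩
  have h3 : ∑ a : X, (S.filter fun p => H a (1, p) = 0).card ≤ S.card * 2 := by
    simp only [card_filter]
    rw [sum_comm, ← smul_eq_mul]
    refine sum_le_card_nsmul _ _ _ fun p hp => ?_
    obtain ⟨v, w, tv, rfl⟩ := (c.pt p).1 hp
    rw [← card_filter]
    refine le_trans (card_le_card (t := {⟨v, (c.mem v w tv).1⟩, ⟨w, (c.mem v w tv).2.1⟩})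
      fun a ha => ?_) Finset.card_le_two
    rw [mem_insert, mem_singleton, Subtype.ext_iff, Subtype.ext_iff]
    exact (c.k1 tv a.2).2 (mem_filter.1 ha).2
  have h4 : ∑ a : X, ((lev (rk (vv X)) (c.sg a) t 3).card + 6) ≤
      ∑ a : X, 3 * (lev (rk (vv X)) (c.sg a) t 2).card :=
    sum_le_sum fun a _ => vfig (fl X) _ t ht (c.rk_sg a) rt
  rw [sum_add_distrib, ← mul_sum, sum_const, card_univ, Fintype.card_coe, smul_eq_mul] at h4
  omega

omit [DecidableEq (EuclideanSpace ℝ (Fin 4))] in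
theorem uniq {f : EuclideanSpace ℝ (Fin 4) →ᵃ[ℝ] ℝ} {v w p q : EuclideanSpace ℝ (Fin 4)}
    (h1 : 0 < f v) (h2 : f w < 0) (hp : p ∈ segment ℝ v w) (hq : q ∈ segment ℝ v w)
    (e1 : f p = 0) (e2 : f q = 0) : p = q := by
  rw [segment_eq_image_lineMap] at hp hq
  obtain ⟨s, -, rfl⟩ := hp
  obtain ⟨u, -, rfl⟩ := hq
  rw [AffineMap.apply_lineMap, AffineMap.lineMap_apply_ring] at e1 e2
  have : (s - u) * (f v - f w) = 0 := by linear_combination e2 - e1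
  rw [sub_eq_zero.1 ((mul_eq_zero.1 this).resolve_right (by linarith))]

theorem exists_cfg {P : Set (EuclideanSpace ℝ (Fin 4))} (hP : IsDeepTruncation P) :
    ∃ (X : Finset (EuclideanSpace ℝ (Fin 4)))
      (h : EuclideanSpace ℝ (Fin 4) → EuclideanSpace ℝ (Fin 4) →ᵃ[ℝ] ℝ),
      (∀ v ∈ X, 0 < h v v) ∧ (∀ v ∈ X, ∀ w ∈ X, v ≠ w → h v w < 0) ∧
      fnum P 1 + 6 * X.card ≤ 6 * fnum P 0 ∧ ∀ [DecidableRel (tang X h).Adj],
      (2 * fnum P 0 : ℝ) ≤ ∑ v ∈ X, ∑ w ∈ X, if (tang X h).Adj v w then (1 : ℝ) else 0 := by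
  classical
  obtain ⟨X, h₀, ⟨-, hX⟩, ha, hd, ho, he₀, rfl⟩ := hP
  choose h hh using ha
  obtain rfl : h₀ = fun v x => h v x := funext₂ hh
  rw [affineSpan_convexHull] at hX
  have he : ∀ v ∈ X, ∀ w ∈ X,
      IsFace (convexHull ℝ (X : Set (EuclideanSpace ℝ (Fin 4)))) (segment ℝ v w) 1 →
        ∃ p ∈ segment ℝ v w, h v p = 0 ∧ h w p = 0 := fun v hv w hw hf => he₀ v w ⟨hv, hw, hf⟩
  choose! π π1 π2 π3 using he
  let T : EuclideanSpace ℝ (Fin 4) → EuclideanSpace ℝ (Fin 4) → Prop := fun v w => v ∈ X ∧ w ∈ X ∧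
    IsFace (convexHull ℝ (X : Set (EuclideanSpace ℝ (Fin 4)))) (segment ℝ v w) 1
  let H : EuclideanSpace ℝ (Fin 4) → ℝ × EuclideanSpace ℝ (Fin 4) →ₗ[ℝ] ℝ := fun v =>
    h v 0 • LinearMap.fst ℝ ℝ _ + (h v).linear ∘ₗ LinearMap.snd ℝ ℝ _
  have hH : ∀ v x, H v (1, x) = h v x := fun v x => by
    have h1 : h v x = (h v).linear x + h v 0 := by simpa using (h v).map_vadd 0 x
    rw [h1, add_comm]; simp [H]
  have ne : ∀ {v w}, T v w → v ≠ w := fun {v w} t e => by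
    have := t.2.2.2.2
    rw [e, segment_same, vectorSpan_singleton, finrank_bot] at this
    omega
  have sy : ∀ v w, T v w → T w v ∧ π w v = π v w := fun v w t => by
    have t' : T w v := ⟨t.2.1, t.1, segment_symm ℝ v w ▸ t.2.2⟩
    exact ⟨t', uniq (hd v t.1) (ho v t.1 w t.2.1 (ne t))
      (segment_symm ℝ w v ▸ π1 w t'.1 v t'.2.1 t'.2.2) (π1 v t.1 w t.2.1 t.2.2)
      (π3 w t'.1 v t'.2.1 t'.2.2) (π2 v t.1 w t.2.1 t.2.2)⟩
  let Tf := (X ×ˢ X).filter fun z => T z.1 z.2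
  have hTf : ∀ z, z ∈ Tf ↔ T z.1 z.2 := fun z =>
    mem_filter.trans (and_iff_right_of_imp fun t => mem_product.2 ⟨t.1, t.2.1⟩)
  let S := Tf.image fun z => π z.1 z.2
  have c : Cfg X H T π S := by
    refine ⟨fun v hv => hH v v ▸ hd v hv, fun v hv w hw vw => hH v w ▸ ho v hv w hw vw,
      fun v w t => ⟨t.1, t.2.1, ne t⟩, sy, fun v w t => (hH _ _).trans (π2 v t.1 w t.2.1 t.2.2),
      fun v w t => ?_, fun a b ab hf => ⟨a.2, b.2, ?_⟩, fun p => ?_⟩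
    · have h1 := π1 v t.1 w t.2.1 t.2.2
      have h2 := π2 v t.1 w t.2.1 t.2.2
      rw [segment_eq_image_lineMap] at h1
      obtain ⟨s, ⟨s0, s1⟩, hs⟩ := h1
      refine ⟨s, lt_of_le_of_ne s0 fun e => ?_, lt_of_le_of_ne s1 fun e => ?_, fun l => ?_⟩
      · rw [← hs, ← e, AffineMap.lineMap_apply_zero] at h2
        exact (hd v t.1).ne' h2
      · rw [← hs, e, AffineMap.lineMap_apply_one] at h2
        exact (ho v t.1 w t.2.1 (ne t)).ne h2
      · have : ((1 : ℝ), π v w) = (1 - s) • ((1 : ℝ), v) + s • ((1 : ℝ), w) := by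
          rw [← hs, AffineMap.lineMap_apply_module]
          simp
        rw [this, map_add, map_smul, map_smul, smul_eq_mul, smul_eq_mul]
    · have h1 := exposed hf
      have h2 : pts ({a, b} : Finset X) = {a.1, b.1} := by simp [pts, Set.image_pair]
      rw [h2, convexHull_pair] at h1
      refine ⟨h1, ⟨a, left_mem_segment ℝ _ _⟩, ?_⟩
      rw [← convexHull_pair, ← direction_affineSpan, affineSpan_convexHull, direction_affineSpan,
        vectorSpan_pair, finrank_span_singleton (vsub_ne_zero.2 fun e => ab (Subtype.ext e))]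
    · rw [mem_image]
      exact ⟨fun ⟨z, hz, e⟩ => ⟨z.1, z.2, (hTf z).1 hz, e.symm⟩,
        fun ⟨v, w, t, e⟩ => ⟨(v, w), (hTf _).2 t, e.symm⟩⟩
  have eS : {p | ∃ v w, IsEdge X v w ∧ OnCut (fun v x => h v x) v w p} =
      (S : Set (EuclideanSpace ℝ (Fin 4))) := by
    ext p
    rw [mem_coe, c.pt]
    constructor
    · rintro ⟨v, w, ⟨hv, hw, hf⟩, h1, h2, -⟩
      exact ⟨v, w, ⟨hv, hw, hf⟩, uniq (hd v hv) (ho v hv w hw (ne ⟨hv, hw, hf⟩)) h1
        (π1 v hv w hw hf) h2 (π2 v hv w hw hf)⟩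
    · rintro ⟨v, w, ⟨hv, hw, hf⟩, rfl⟩
      exact ⟨v, w, ⟨hv, hw, hf⟩, π1 v hv w hw hf, π2 v hv w hw hf, π3 v hv w hw hf⟩
  rw [eS]
  refine ⟨X, h, hd, ho, c.f0 ▸ c.f1 hX, ?_⟩
  intro _
  have h3 : 2 * S.card ≤ Tf.card := by
    refine mul_card_image_le_card Tf 2 fun b hb => ?_
    obtain ⟨z, hz, rfl⟩ := mem_image.1 hb
    have t := (hTf z).1 hz
    exact one_lt_card.2 ⟨z, mem_filter.2 ⟨hz, rfl⟩, (z.2, z.1),
      mem_filter.2 ⟨(hTf _).2 (sy _ _ t).1, (sy _ _ t).2⟩, fun e => ne t (congrArg Prod.fst e)⟩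
  have h4 : Tf.card ≤ ((X ×ˢ X).filter fun z => (tang X h).Adj z.1 z.2).card :=
    card_le_card fun z hz => by
      have t := (hTf z).1 hz
      exact mem_filter.2 ⟨mem_product.2 ⟨t.1, t.2.1⟩, t.1, t.2.1, ne t,
        prod_eq (hd _ t.1) (ho _ t.1 _ t.2.1 (ne t)) (π1 _ t.1 _ t.2.1 t.2.2)
          (π2 _ t.1 _ t.2.1 t.2.2) (π3 _ t.1 _ t.2.1 t.2.2)⟩
  rw [c.f0, ← sum_product', sum_boole]
  exact_mod_cast h3.trans h4

theorem arith {ε C s N : ℝ} (hε : 0 < ε) (hN : 0 ≤ N) (hs : 12 / ε * (3 + |C|) + 1 ≤ s)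
    (h : 2 * s ^ 2 ≤ (1 / 2 + ε / 48) * (N * (N + 1)) + C) : (12 - ε) * s ≤ 6 * N := by
  have h0 : 0 ≤ 12 / ε * (3 + |C|) := by positivity
  have hC := abs_nonneg C
  have h1 : 12 * (3 + |C|) ≤ ε * s := by
    have : ε * (12 / ε * (3 + |C|)) = 12 * (3 + |C|) := by field_simp
    nlinarith
  by_contra hn
  have hn' := not_le.1 hn
  have s1 : 1 ≤ s := by linarith
  have e12 : ε < 12 := by
    by_contra he
    nlinarith [mul_nonneg (sub_nonneg.2 (not_lt.1 he)) (by linarith : 0 ≤ s)]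
  have a1 : N ≤ 2 * s := by nlinarith [mul_pos hε (by linarith : 0 < s)]
  have a2 : (6 * N) ^ 2 ≤ ((12 - ε) * s) ^ 2 := pow_le_pow_left₀ (by linarith) hn'.le 2
  have a3 : N ^ 2 ≤ (4 - ε / 3) * s ^ 2 := by
    nlinarith [mul_nonneg (mul_nonneg hε.le (sub_nonneg.2 e12.le)) (sq_nonneg s)]
  have a4 : (1 / 2 + ε / 48) * N ^ 2 ≤ (2 - ε / 12) * s ^ 2 := by
    have := mul_le_mul_of_nonneg_left a3 (by positivity : 0 ≤ 1 / 2 + ε / 48)
    nlinarith [mul_nonneg (sq_nonneg ε) (sq_nonneg s)]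
  have a5 : (1 / 2 + ε / 48) * N ≤ 2 * s := by nlinarith
  have a6 := mul_le_mul_of_nonneg_right h1 (by linarith : 0 ≤ s)
  have a7 : |C| ≤ |C| * s := le_mul_of_one_le_right hC s1
  nlinarith [le_abs_self C]

end Pool.Agent.Lib.MP_087efe_co.DT
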