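import Pool.Agent.Lib.MP_bfa8dc_co.GEul
import Pool.Agent.Lib.MP_bfa8dc_co.GFar

/-! Face lattice facts: a vertex figure of a 4-polytope has at most `3 a - 6` edges; edges have
two vertices; exposed faces are faces of the lattice. -/

set_option autoImplicit false

namespace Pool.Agent.Lib.MP_087efe_co.DT

open KHPoly KHPoly.GPoly Finset

section
variable {L : Type} [SemilatticeInf L] [Fintype L] {r : L → ℕ}

theorem eul (hF : FL r) (x y : L) (hxy : x < y) (hy : r y ≤ 5) :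
    ∑ k ∈ range 6, (-1 : ℤ) ^ k * (lev r x y k).card = 0 := by
  classical
  rw [← hF.euler x y hxy, ← sum_fiberwise_of_maps_to (t := range 6) (g := r)
    (fun c hc => mem_range.2 (by have := LBasic.mono_le hF _ _ (mem_itv.1 hc).2; omega))]
  refine sum_congr rfl fun k _ => ?_
  have : (itv x y).filter (fun c => r c = k) = lev r x y k := by
    ext c; simp [mem_itv, mem_lev, and_assoc]
  rw [this, sum_congr rfl (fun c hc => by rw [(mem_lev.1 hc).2.2]), sum_const, nsmul_eq_mul,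
    mul_comm]

theorem lev_out (hF : FL r) (x y : L) (k : ℕ) (h : k < r x ∨ r y < k) :
    (lev r x y k).card = 0 := by
  rw [card_eq_zero, eq_empty_iff_forall_notMem]
  intro c hc
  obtain ⟨h1, h2, h3⟩ := mem_lev.1 hc
  have := LBasic.mono_le hF _ _ h1
  have := LBasic.mono_le hF _ _ h2
  omega

theorem lev_bot (hF : FL r) (x y : L) (hxy : x ≤ y) (k : ℕ) (h : r x = k) :
    (lev r x y k).card = 1 :=
  card_eq_one.2 ⟨x, eq_singleton_iff_unique_mem.2 ⟨mem_lev.2 ⟨le_rfl, hxy, h⟩, fun c hc =>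
    (LBasic.eq_of hF _ _ (mem_lev.1 hc).1 (by have := (mem_lev.1 hc).2.2; omega)).symm⟩⟩

theorem lev_top (hF : FL r) (x y : L) (hxy : x ≤ y) (k : ℕ) (h : r y = k) :
    (lev r x y k).card = 1 :=
  card_eq_one.2 ⟨y, eq_singleton_iff_unique_mem.2 ⟨mem_lev.2 ⟨hxy, le_rfl, h⟩, fun c hc =>
    LBasic.eq_of hF _ _ (mem_lev.1 hc).2.1 (by have := (mem_lev.1 hc).2.2; omega)⟩⟩

theorem vfig (hF : FL r) (v t : L) (ht : ∀ x, x ≤ t) (rv : r v = 1) (rt : r t = 5) :
    (lev r v t 3).card + 6 ≤ 3 * (lev r v t 2).card := by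
  classical
  have e1 := eul hF v t (lt_of_le_of_ne (ht v) fun e => by rw [e] at rv; omega) rt.le
  simp only [sum_range_succ, range_zero, sum_empty, lev_out hF v t 0 (by omega),
    lev_bot hF v t (ht v) 1 rv, lev_top hF v t (ht v) 5 rt] at e1
  have e2 : (lev r v t 4).card * 3 ≤ (lev r v t 3).card * 2 := by
    refine card_mul_le_card_mul (fun T G => G ≤ T) (fun T hT => ?_) (fun G hG => ?_)
    · obtain ⟨h1, -, h3⟩ := mem_lev.1 hT
      have e3 := eul hF v T (lt_of_le_of_ne h1 fun e => by rw [e] at rv; omega) (by omega)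
      simp only [sum_range_succ, range_zero, sum_empty, lev_out hF v T 0 (by omega),
        lev_bot hF v T h1 1 rv, lev_top hF v T h1 4 h3, lev_out hF v T 5 (by omega)] at e3
      have e4 := (basicS L r hF).atoms_ge v T h1
      rw [rv, h3] at e4
      have e5 : (lev r v T 3).card ≤ ((lev r v t 3).bipartiteAbove (fun T G => G ≤ T) T).card :=
        card_le_card fun c hc => (mem_bipartiteAbove _).2
          ⟨LBasic.lev_mono 3 le_rfl (ht T) hc, (mem_lev.1 hc).2.1⟩
      norm_num at e3 e4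
      omega
    · obtain ⟨-, -, h3⟩ := mem_lev.1 hG
      have e3 := LBasic.diamond_card hF G t (ht G) (by omega)
      rw [h3] at e3
      refine le_trans (card_le_card fun c hc => ?_) e3.le
      obtain ⟨p1, p2⟩ := (mem_bipartiteBelow _).1 hc
      exact mem_lev.2 ⟨p2, ht c, (mem_lev.1 p1).2.2⟩
  norm_num at e1
  omega

end

variable {E : Type} [NormedAddCommGroup E] [NormedSpace ℝ E] [FiniteDimensional ℝ E]
  [DecidableEq E]

theorem fl (s : Finset E) : FL (rk (vv s)) := geoS_of geoMonoS geoEulS geoSpanS _ _ (vv s)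

theorem card_le_two {s : Finset E} (hs : ∀ a, KHPoly.IsFace (vv s) {a}) (Z : Face (vv s))
    (hZ : rk (vv s) Z ≤ 2) : Z.1.card ≤ 2 := by
  let o : Face (vv s) := ⟨∅, face_empty s⟩
  have ho : o ≤ Z := Finset.empty_subset _
  have ro : rk (vv s) o = 0 := rk_empty o rfl
  have h1 : Z.1.card ≤ (lev (rk (vv s)) o Z 1).card :=
    card_le_card_of_injOn (fun a => (⟨{a}, hs a⟩ : Face (vv s)))
      (fun a ha => mem_coe.2 (mem_lev.2 ⟨Finset.empty_subset _, singleton_subset_iff.2 ha,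
        rk_single _ rfl⟩))
      fun a _ b _ e => singleton_injective (congrArg Subtype.val e)
  rcases (show rk (vv s) Z = 0 ∨ rk (vv s) Z = 1 ∨ rk (vv s) Z = 2 by omega) with h | h | h
  · have := lev_out (fl s) o Z 1 (by omega); omega
  · have := lev_top (fl s) o Z ho 1 h; omega
  · have := LBasic.diamond_card (fl s) o Z ho (by omega)
    rw [ro, zero_add] at this
    omega

theorem edge_form {s : Finset E} (hs : ∀ a, KHPoly.IsFace (vv s) {a}) (Z : Face (vv s))
    (hZ : rk (vv s) Z = 2) {a : s} (ha : a ∈ Z.1) : ∃ b, b ≠ a ∧ Z.1 = {a, b} := by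
  have : ∃ b ∈ Z.1, b ≠ a := by
    by_contra hn
    push Not at hn
    have h1 : Z ≤ ⟨{a}, hs a⟩ := fun b hb => mem_singleton.2 (hn b hb)
    have h2 := LBasic.mono_le (fl s) _ _ h1
    rw [rk_single ⟨{a}, hs a⟩ rfl] at h2
    omega
  obtain ⟨b, hb, ba⟩ := this
  refine ⟨b, ba, (eq_of_subset_of_card_le (insert_subset ha (singleton_subset_iff.2 hb)) ?_).symm⟩
  rw [card_pair ba.symm]
  exact card_le_two hs Z hZ.le

omit [FiniteDimensional ℝ E] in
theorem zero_face {s : Finset E} (l : ℝ × E →ₗ[ℝ] ℝ) (h : ∀ x ∈ s, 0 ≤ l (1, x)) :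
    ∃ Z : Face (vv s), ∀ a, a ∈ Z.1 ↔ l (1, a.1) = 0 := by
  classical
  exact ⟨⟨univ.filter fun a => l (1, a.1) = 0, l, fun a => h a a.2, fun a => by simp [vv]⟩,
    fun a => by simp⟩

theorem of_exposed {s : Finset E} {F : Set E} (hF : IsExposed ℝ (convexHull ℝ (s : Set E)) F)
    (hne : F.Nonempty) : ∃ Z : Face (vv s), Z.1.Nonempty ∧ F = convexHull ℝ (pts Z.1) ∧
      rk (vv s) Z = Module.finrank ℝ (vectorSpan ℝ F) + 1 := by
  obtain ⟨f, hf⟩ := hF hne
  obtain ⟨z, hz⟩ := hne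
  have hz' := hz
  rw [hf] at hz'
  let l : ℝ × E →ₗ[ℝ] ℝ := f z • LinearMap.fst ℝ ℝ E - f.toLinearMap ∘ₗ LinearMap.snd ℝ ℝ E
  have hl : ∀ x, l (1, x) = f z - f x := fun x => by simp [l]
  have h0 : ∀ x ∈ s, 0 ≤ l (1, x) := fun x hx => by
    rw [hl]; exact sub_nonneg.2 (hz'.2 x (subset_convexHull ℝ _ hx))
  obtain ⟨Z, hZ⟩ := zero_face l h0
  have e : F = convexHull ℝ (pts Z.1) := by
    ext x
    rw [hull_eq (l := l) (fun i => h0 i i.2) hZ, hf, hl]
    refine and_congr_right fun hx => ⟨fun h => ?_, fun h y hy => ?_⟩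
    · linarith [h z hz'.1, hz'.2 x hx]
    · linarith [hz'.2 y hy]
  have hn : Z.1.Nonempty := by
    rw [e] at hz
    obtain ⟨_, a, ha, -⟩ := convexHull_nonempty_iff.1 ⟨z, hz⟩
    exact ⟨a, ha⟩
  refine ⟨Z, hn, e, ?_⟩
  rw [rk_eq Z hn, direction_affineSpan, ← e]

end Pool.Agent.Lib.MP_087efe_co.DT
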