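import Pool.Agent.Lib.MP_087efe_co.DT.Unit

/-! No three large mutually tangent groups in dimension five. -/

set_option autoImplicit false

namespace Pool.Agent.Lib.MP_087efe_co.DT

open Filter Matrix Module

section
variable {K : Type} [Field K] [LinearOrder K] [IsStrictOrderedRing K]

theorem one_sign {x y z a b c : K} (ha : 0 < a) (hb : b < 0) (hc : c < 0)
    (e : x * a + y * b + z * c = 0) : ¬ (0 < x ∧ y ≤ 0 ∧ z ≤ 0) ∧ ¬ (x < 0 ∧ 0 ≤ y ∧ 0 ≤ z) := by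
  refine ⟨fun ⟨h1, h2, h3⟩ => ?_, fun ⟨h1, h2, h3⟩ => ?_⟩
  · nlinarith [mul_pos h1 ha, mul_nonneg_of_nonpos_of_nonpos h2 hb.le,
      mul_nonneg_of_nonpos_of_nonpos h3 hc.le]
  · nlinarith [mul_neg_of_neg_of_pos h1 ha, mul_nonpos_of_nonneg_of_nonpos h2 hb.le,
      mul_nonpos_of_nonneg_of_nonpos h3 hc.le]

theorem same_sign {x y z a b c : K} (ha : a < 0) (hb : b < 0) (hc : c < 0)
    (e : x * a + y * b + z * c = 0) : ¬ (0 < x ∧ 0 ≤ y ∧ 0 ≤ z) ∧ ¬ (x < 0 ∧ y ≤ 0 ∧ z ≤ 0) := by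
  refine ⟨fun ⟨h1, h2, h3⟩ => ?_, fun ⟨h1, h2, h3⟩ => ?_⟩
  · nlinarith [mul_neg_of_pos_of_neg h1 ha, mul_nonpos_of_nonneg_of_nonpos h2 hb.le,
      mul_nonpos_of_nonneg_of_nonpos h3 hc.le]
  · nlinarith [mul_pos_of_neg_of_neg h1 ha, mul_nonneg_of_nonpos_of_nonpos h2 hb.le,
      mul_nonneg_of_nonpos_of_nonpos h3 hc.le]

theorem sign (M : ℕ → ℕ → K) (hd : ∀ a, 0 < M a a) (ho : ∀ a b, a ≠ b → M a b < 0) (x y z : K)
    (e : ∀ j, x * M 0 j + y * M 1 j + z * M 2 j = 0) : x = 0 ∧ y = 0 ∧ z = 0 := by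
  have a1 := one_sign (x := x) (y := y) (z := z) (hd 0) (ho 1 0 (by decide)) (ho 2 0 (by decide))
    (e 0)
  have a2 := one_sign (x := y) (y := x) (z := z) (hd 1) (ho 0 1 (by decide)) (ho 2 1 (by decide))
    (by linear_combination e 1)
  have a3 := one_sign (x := z) (y := x) (z := y) (hd 2) (ho 0 2 (by decide)) (ho 1 2 (by decide))
    (by linear_combination e 2)
  have b1 := same_sign (x := x) (y := y) (z := z) (ho 0 3 (by decide)) (ho 1 3 (by decide))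
    (ho 2 3 (by decide)) (e 3)
  have b2 := same_sign (x := y) (y := x) (z := z) (ho 1 3 (by decide)) (ho 0 3 (by decide))
    (ho 2 3 (by decide)) (by linear_combination e 3)
  have b3 := same_sign (x := z) (y := x) (z := y) (ho 2 3 (by decide)) (ho 0 3 (by decide))
    (ho 1 3 (by decide)) (by linear_combination e 3)
  grind

theorem three (h q : ℕ → Fin 5 → K) (hd : ∀ a, 0 < h a ⬝ᵥ q a)
    (ho : ∀ a b, a ≠ b → h a ⬝ᵥ q b < 0) (H V : Submodule K (Fin 5 → K))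
    (hH : ∀ᶠ a in (hyperfilter ℕ : Filter ℕ), h a ∈ H)
    (hV : ∀ᶠ a in (hyperfilter ℕ : Filter ℕ), q a ∈ V) :
    finrank K (ann V) ≤ 2 ∧ 3 + finrank K (H ⊓ ann V : Submodule K (Fin 5 → K)) ≤ finrank K H := by
  have hS : {a | h a ∈ H ∧ q a ∈ V}.Infinite := fun hf =>
    hf.notMem_hyperfilter (hH.and hV)
  let g : ℕ → ℕ := fun i => hS.natEmbedding _ i
  have gi : Function.Injective g := Subtype.val_injective.comp (hS.natEmbedding _).injective
  have gS : ∀ i, h (g i) ∈ H ∧ q (g i) ∈ V := fun i => (hS.natEmbedding _ i).2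
  let L : (Fin 3 → K) →ₗ[K] (Fin 5 → K) := Fintype.linearCombination K fun i : Fin 3 => h (g i)
  have hL : ∀ c, L c = c 0 • h (g 0) + c 1 • h (g 1) + c 2 • h (g 2) := fun c => by
    simp only [L, Fintype.linearCombination_apply, Fin.sum_univ_three]; rfl
  have key : ∀ c, L c ∈ ann V → c = 0 := fun c hc => by
    obtain ⟨x, y, z⟩ := sign (fun a b => h (g a) ⬝ᵥ q (g b)) (fun a => hd _)
      (fun a b ab => ho _ _ (gi.ne ab)) (c 0) (c 1) (c 2) fun j => by
        have := hc _ (gS j).2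
        rw [hL] at this
        simpa only [add_dotProduct, smul_dotProduct, smul_eq_mul] using this
    funext i
    fin_cases i
    exacts [x, y, z]
  have inj : Function.Injective L :=
    (injective_iff_map_eq_zero L).2 fun c hc => key c (hc ▸ Submodule.zero_mem _)
  have r3 : finrank K (LinearMap.range L) = 3 := by
    rw [LinearMap.finrank_range_of_inj inj]; simp
  have bot : ∀ W : Submodule K (Fin 5 → K), W ≤ ann V →
      finrank K (LinearMap.range L ⊓ W : Submodule K (Fin 5 → K)) = 0 := fun W hW => by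
    rw [Submodule.finrank_eq_zero, eq_bot_iff]
    rintro _ ⟨⟨c, rfl⟩, hc⟩
    rw [key c (hW hc), map_zero]
    exact Submodule.zero_mem _
  have le : LinearMap.range L ⊔ (H ⊓ ann V) ≤ H := by
    refine sup_le ?_ inf_le_left
    rintro _ ⟨c, rfl⟩
    rw [hL]
    exact H.add_mem (H.add_mem (H.smul_mem _ (gS 0).1) (H.smul_mem _ (gS 1).1))
      (H.smul_mem _ (gS 2).1)
  have a1 := Submodule.finrank_sup_add_finrank_inf_eq (LinearMap.range L) (ann V)
  have a2 := Submodule.finrank_sup_add_finrank_inf_eq (LinearMap.range L) (H ⊓ ann V)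
  have a3 := bot _ le_rfl
  have a4 := bot (H ⊓ ann V) inf_le_right
  have a5 := Submodule.finrank_mono le
  have a6 : finrank K (LinearMap.range L ⊔ ann V : Submodule K (Fin 5 → K)) ≤ 5 :=
    (Submodule.finrank_le _).trans (by simp)
  omega

theorem no_infinite (h q : Fin 3 → ℕ → Fin 5 → K) (hd : ∀ X a, 0 < h X a ⬝ᵥ q X a)
    (ho : ∀ X a b, a ≠ b → h X a ⬝ᵥ q X b < 0)
    (e : ∀ X Y, X ≠ Y → ∀ a b, (h X a ⬝ᵥ q Y b) * (h Y b ⬝ᵥ q X a) = 1) : False := by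
  choose H hH mH using fun X => exists_min (hyperfilter ℕ : Filter ℕ) (h X)
  choose V hV mV using fun X => exists_min (hyperfilter ℕ : Filter ℕ) (q X)
  have t := fun X => three (h X) (q X) (hd X) (ho X) (H X) (V X) (hH X) (hV X)
  have c : ∀ X Y, X ≠ Y → finrank K (H X) ≤
      finrank K (H X ⊓ ann (V Y) : Submodule K (Fin 5 → K)) + 1 := fun X Y XY =>
    cross (hyperfilter ℕ) (h X) (q X) (h Y) (q Y) (e X Y XY) (H X) (V Y) (H Y) (mH X) (hV Y)
      (mV Y) (hH Y) (mH Y)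
  have d : ∀ X Y, X ≠ Y → ann (V Y) ≤ H X ∧ finrank K (ann (V Y)) = 2 ∧ finrank K (H X) = 3 :=
    fun X Y XY => by
      have a1 := c X Y XY
      have a2 := t X
      have a3 := t Y
      have a4 := Submodule.finrank_mono (inf_le_right : H X ⊓ ann (V Y) ≤ ann (V Y))
      refine ⟨inf_eq_right.1 (Submodule.eq_of_le_of_finrank_eq inf_le_right (by omega)),
        by omega, by omega⟩
  obtain ⟨p1, p2, p3⟩ := d 2 0 (by decide)
  obtain ⟨p4, p5, -⟩ := d 2 1 (by decide)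
  obtain ⟨p6, -, p7⟩ := d 1 0 (by decide)
  have a1 := Submodule.finrank_sup_add_finrank_inf_eq (ann (V 0)) (ann (V 1))
  have a2 := Submodule.finrank_mono (sup_le p1 p4)
  have a3 := Submodule.finrank_mono (inf_le_inf_right (ann (V 1)) p6)
  have a4 := t 1
  omega

end

theorem exists_bound : ∃ t : ℕ, ∀ h q : Fin 3 → ℕ → Fin 5 → ℝ,
    (∀ X, ∀ a < t, 0 < h X a ⬝ᵥ q X a) →
    (∀ X, ∀ a < t, ∀ b < t, a ≠ b → h X a ⬝ᵥ q X b < 0) →
    (∀ X Y, X ≠ Y → ∀ a < t, ∀ b < t, (h X a ⬝ᵥ q Y b) * (h Y b ⬝ᵥ q X a) = 1) → False := by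
  by_contra hn
  push Not at hn
  choose h q hd ho e _ using hn
  let H : Fin 3 → ℕ → Fin 5 → Germ (hyperfilter ℕ : Filter ℕ) ℝ :=
    fun X a i => ((fun t => h t X a i : ℕ → ℝ) : Germ _ ℝ)
  let Q : Fin 3 → ℕ → Fin 5 → Germ (hyperfilter ℕ : Filter ℕ) ℝ :=
    fun X a i => ((fun t => q t X a i : ℕ → ℝ) : Germ _ ℝ)
  have HQ : ∀ X Y a b, H X a ⬝ᵥ Q Y b =
      ((fun t => h t X a ⬝ᵥ q t Y b : ℕ → ℝ) : Germ (hyperfilter ℕ : Filter ℕ) ℝ) :=
    fun X Y a b => by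
      simp only [dotProduct, Fin.sum_univ_five]; rfl
  have ev : ∀ a : ℕ, ∀ᶠ t in (hyperfilter ℕ : Filter ℕ), a < t := fun a =>
    (Nat.hyperfilter_le_atTop) (eventually_gt_atTop a)
  refine no_infinite H Q (fun X a => ?_) (fun X a b ab => ?_) (fun X Y XY a b => ?_)
  · rw [HQ]
    exact Germ.coe_lt.2 ((ev a).mono fun t ht => hd t X a ht)
  · rw [HQ]
    exact Germ.coe_lt.2 (((ev a).and (ev b)).mono fun t ht => ho t X a ht.1 b ht.2 ab)
  · rw [HQ, HQ]
    exact Germ.coe_eq.2 (((ev a).and (ev b)).mono fun t ht => e t X Y XY a ht.1 b ht.2)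

end Pool.Agent.Lib.MP_087efe_co.DT
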