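import Mathlib

/-! Infinite blocks of a matrix `⟨h a, q b⟩` with `⟨h a, q b⟩ ⟨h b, q a⟩ = 1` have rank one
generically (a units theorem, by valuations of an ultrapower). -/

set_option autoImplicit false

namespace Pool.Agent.Lib.MP_087efe_co.DT

open Filter Matrix

variable {K : Type} [Field K]

theorem exists_min (l : Filter ℕ) (q : ℕ → Fin 5 → K) :
    ∃ V : Submodule K (Fin 5 → K), (∀ᶠ a in l, q a ∈ V) ∧
      ∀ W : Submodule K (Fin 5 → K), (∀ᶠ a in l, q a ∈ W) → V ≤ W := by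
  obtain ⟨V, hV, hmin⟩ := (wellFounded_lt (α := Submodule K (Fin 5 → K))).has_min
    {W | ∀ᶠ a in l, q a ∈ W} ⟨⊤, by simp⟩
  refine ⟨V, hV, fun W hW => ?_⟩
  by_contra hn
  have hV' : ∀ᶠ a in l, q a ∈ V := hV
  exact hmin (V ⊓ W) ((hV'.and hW).mono fun a h => h)
    (lt_of_le_of_ne inf_le_left fun e => hn (inf_eq_left.1 e))

theorem exists_val (U : Ultrafilter ℕ) (r : ℕ → K)
    (hr : ∀ c, ¬ ∀ᶠ a in (U : Filter ℕ), r a = c) :
    ∃ B : ValuationSubring (Germ (U : Filter ℕ) K),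
      (∀ c : K, B.valuation ((fun _ => c : ℕ → K) : Germ (U : Filter ℕ) K) ≤ 1) ∧
        B.valuation (r : Germ (U : Filter ℕ) K) < 1 := by
  let φ : Polynomial K →+* Germ (U : Filter ℕ) K :=
    (Germ.coeRingHom _).comp (RingHom.pi fun a => Polynomial.evalRingHom (r a))
  have hφ : ∀ p, φ p = ((fun a => p.eval (r a) : ℕ → K) : Germ (U : Filter ℕ) K) := fun p => rfl
  have hI : Ideal.span {φ.rangeRestrict Polynomial.X} ≠ ⊤ := by
    intro hT
    obtain ⟨y, hy⟩ := Ideal.mem_span_singleton'.1 ((Ideal.eq_top_iff_one _).1 hT)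
    obtain ⟨p, rfl⟩ := φ.rangeRestrict_surjective y
    have e1 : φ (p * Polynomial.X - 1) = 0 := by
      have := congrArg Subtype.val hy
      rw [map_sub, map_mul, map_one, sub_eq_zero]
      simpa using this
    have hP : p * Polynomial.X - 1 ≠ 0 := fun e => by
      simpa using congrArg (Polynomial.eval 0) e
    rw [hφ] at e1
    have e2 : ∀ᶠ a in (U : Filter ℕ), (p * Polynomial.X - 1).eval (r a) = 0 := Germ.coe_eq.1 e1
    obtain ⟨c, -, hc⟩ := Ultrafilter.eq_pure_of_finite_mem (f := U.map r)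
      (Polynomial.finite_setOfPred_isRoot hP) e2
    have : {c} ∈ U.map r := by rw [hc]; simp
    exact hr c this
  obtain ⟨B, h1, h2⟩ := Ideal.image_subset_nonunits_valuationSubring _ hI
  refine ⟨B, fun c => ?_, ?_⟩
  · refine (B.valuation_le_one_iff _).2 (h1 ⟨Polynomial.C c, ?_⟩)
    rw [hφ]; simp
  · refine (B.mem_nonunits_iff).1 (h2 ⟨_, Ideal.subset_span rfl, ?_⟩)
    change φ Polynomial.X = _
    rw [hφ]; simp

theorem unit (U : Ultrafilter ℕ) (h q k p : ℕ → Fin 5 → K)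
    (e : ∀ a b, (h a ⬝ᵥ p b) * (k b ⬝ᵥ q a) = 1) (V H : Submodule K (Fin 5 → K))
    (mV : ∀ W : Submodule K (Fin 5 → K), (∀ᶠ b in (U : Filter ℕ), p b ∈ W) → V ≤ W)
    (mH : ∀ W : Submodule K (Fin 5 → K), (∀ᶠ b in (U : Filter ℕ), k b ∈ W) → H ≤ W)
    (b₁ b₂ : ℕ) (h1 : k b₁ ∈ H) (h2 : p b₂ ∈ V) :
    ∃ c, ∀ᶠ a in (U : Filter ℕ), h a ⬝ᵥ p b₁ = c * (h a ⬝ᵥ p b₂) := by
  by_contra hn
  have nz : ∀ a b, h a ⬝ᵥ p b ≠ 0 := fun a b => left_ne_zero_of_mul_eq_one (e a b)
  obtain ⟨B, hc, hr⟩ := exists_val U (fun a => (h a ⬝ᵥ p b₁) / (h a ⬝ᵥ p b₂)) fun c hc =>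
    hn ⟨c, hc.mono fun a ha => (div_eq_iff (nz a b₂)).1 ha⟩
  let F : (Fin 5 → K) → Germ (U : Filter ℕ) K := fun v => ((fun a => h a ⬝ᵥ v : ℕ → K) : Germ _ K)
  let G : (Fin 5 → K) → Germ (U : Filter ℕ) K := fun v => ((fun a => v ⬝ᵥ q a : ℕ → K) : Germ _ K)
  have Fa : ∀ v w, F (v + w) = F v + F w := fun v w => by
    simp only [F, dotProduct_add]; rfl
  have Ga : ∀ v w, G (v + w) = G v + G w := fun v w => by
    simp only [G, add_dotProduct]; rfl
  have Fs : ∀ (c : K) v, F (c • v) = ((fun _ => c : ℕ → K) : Germ (U : Filter ℕ) K) * F v :=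
    fun c v => by simp only [F, dotProduct_smul, smul_eq_mul]; rfl
  have Gs : ∀ (c : K) v, G (c • v) = ((fun _ => c : ℕ → K) : Germ (U : Filter ℕ) K) * G v :=
    fun c v => by simp only [G, smul_dotProduct, smul_eq_mul]; rfl
  have F0 : F 0 = 0 := by simp only [F, dotProduct_zero]; rfl
  have G0 : G 0 = 0 := by simp only [G, zero_dotProduct]; rfl
  have FG : ∀ b, B.valuation (F (p b)) * B.valuation (G (k b)) = 1 := fun b => by
    rw [← map_mul]
    have : F (p b) * G (k b) = 1 := by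
      have : (fun a => (h a ⬝ᵥ p b) * (k b ⬝ᵥ q a) : ℕ → K) = 1 := funext fun a => e a b
      change ((fun a => (h a ⬝ᵥ p b) * (k b ⬝ᵥ q a) : ℕ → K) : Germ (U : Filter ℕ) K) = 1
      rw [this]; rfl
    rw [this, map_one]
  have Fp : ∀ b, 0 < B.valuation (F (p b)) := fun b =>
    zero_lt_iff.2 (left_ne_zero_of_mul_eq_one (FG b))
  have Gp : ∀ b, 0 < B.valuation (G (k b)) := fun b =>
    zero_lt_iff.2 (right_ne_zero_of_mul_eq_one (FG b))
  have lt : B.valuation (F (p b₁)) < B.valuation (F (p b₂)) := by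
    have : F (p b₁) = ((fun a => (h a ⬝ᵥ p b₁) / (h a ⬝ᵥ p b₂) : ℕ → K) : Germ (U : Filter ℕ) K) *
        F (p b₂) := by
      change _ = ((fun a => (h a ⬝ᵥ p b₁) / (h a ⬝ᵥ p b₂) * (h a ⬝ᵥ p b₂) : ℕ → K) :
        Germ (U : Filter ℕ) K)
      simp only [F, div_mul_cancel₀ _ (nz _ b₂)]
    rw [this, map_mul]
    exact mul_lt_of_lt_one_left (Fp b₂) hr
  let E' : Submodule K (Fin 5 → K) :=
    { carrier := {v | B.valuation (F v) ≤ B.valuation (F (p b₁))}
      add_mem' := fun {v w} hv hw => by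
        change B.valuation (F (v + w)) ≤ B.valuation (F (p b₁))
        rw [Fa]; exact B.valuation.map_add_le hv hw
      zero_mem' := by
        change B.valuation (F 0) ≤ B.valuation (F (p b₁))
        rw [F0, map_zero]; exact zero_le
      smul_mem' := fun c v hv => by
        change B.valuation (F (c • v)) ≤ B.valuation (F (p b₁))
        rw [Fs, map_mul]
        exact (mul_le_of_le_one_left' (hc c)).trans hv }
  let D' : Submodule K (Fin 5 → K) :=
    { carrier := {v | B.valuation (G v) < B.valuation (G (k b₁))}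
      add_mem' := fun {v w} hv hw => by
        change B.valuation (G (v + w)) < B.valuation (G (k b₁))
        rw [Ga]; exact B.valuation.map_add_lt hv hw
      zero_mem' := by
        change B.valuation (G 0) < B.valuation (G (k b₁))
        rw [G0, map_zero]; exact Gp b₁
      smul_mem' := fun c v hv => by
        change B.valuation (G (c • v)) < B.valuation (G (k b₁))
        rw [Gs, map_mul]
        exact (mul_le_of_le_one_left' (hc c)).trans_lt hv }
  have n1 : ¬ ∀ᶠ b in (U : Filter ℕ), p b ∈ E' := fun hh => lt.not_ge (mV E' hh h2)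
  have n2 : ∀ᶠ b in (U : Filter ℕ), k b ∈ D' := (Ultrafilter.eventually_not.2 n1).mono fun b hb => by
    have hb' : B.valuation (F (p b₁)) < B.valuation (F (p b)) := not_le.1 hb
    change B.valuation (G (k b)) < B.valuation (G (k b₁))
    by_contra hg
    have := mul_lt_mul_of_lt_of_le_of_nonneg_of_pos hb' (not_lt.1 hg) zero_le (Gp b)
    rw [FG, FG] at this
    exact lt_irrefl _ this
  have t0 : k b₁ ∈ D' := mH D' n2 h1
  have t : B.valuation (G (k b₁)) < B.valuation (G (k b₁)) := t0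
  exact lt_irrefl _ t

/-- The annihilator of a subspace under the dot product. -/
def ann (V : Submodule K (Fin 5 → K)) : Submodule K (Fin 5 → K) where
  carrier := {f | ∀ v ∈ V, f ⬝ᵥ v = 0}
  add_mem' := fun {f g} hf hg v hv => by rw [add_dotProduct, hf v hv, hg v hv, add_zero]
  zero_mem' := fun v _ => zero_dotProduct v
  smul_mem' := fun c f hf v hv => by rw [smul_dotProduct, hf v hv, smul_zero]

/-- The functional `f ↦ f ⬝ᵥ v`. -/
def ev (v : Fin 5 → K) : (Fin 5 → K) →ₗ[K] K where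
  toFun f := f ⬝ᵥ v
  map_add' f g := add_dotProduct f g v
  map_smul' c f := by simp

theorem cross (U : Ultrafilter ℕ) (h q k p : ℕ → Fin 5 → K)
    (e : ∀ a b, (h a ⬝ᵥ p b) * (k b ⬝ᵥ q a) = 1) (HA V H : Submodule K (Fin 5 → K))
    (mA : ∀ W : Submodule K (Fin 5 → K), (∀ᶠ a in (U : Filter ℕ), h a ∈ W) → HA ≤ W)
    (hV : ∀ᶠ b in (U : Filter ℕ), p b ∈ V)
    (mV : ∀ W : Submodule K (Fin 5 → K), (∀ᶠ b in (U : Filter ℕ), p b ∈ W) → V ≤ W)
    (hH : ∀ᶠ b in (U : Filter ℕ), k b ∈ H)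
    (mH : ∀ W : Submodule K (Fin 5 → K), (∀ᶠ b in (U : Filter ℕ), k b ∈ W) → H ≤ W) :
    Module.finrank K HA ≤ Module.finrank K (HA ⊓ ann V : Submodule K (Fin 5 → K)) + 1 := by
  obtain ⟨b₀, hb₀⟩ := hV.exists
  have le : HA ⊓ LinearMap.ker (ev (p b₀)) ≤ HA ⊓ ann V := by
    rintro f ⟨f1, f2⟩
    refine ⟨f1, fun v hv => ?_⟩
    have f3 : f ⬝ᵥ p b₀ = 0 := f2
    have : V ≤ LinearMap.ker (ev f) := mV _ (hH.mono fun b hb => by
      obtain ⟨c, hc⟩ := unit U h q k p e V H mV mH b b₀ hb hb₀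
      have : HA ≤ LinearMap.ker (ev (p b - c • p b₀)) := mA _ (hc.mono fun a ha => by
        change h a ⬝ᵥ (p b - c • p b₀) = 0
        rw [dotProduct_sub, dotProduct_smul, ha, smul_eq_mul, sub_self])
      have t : f ⬝ᵥ (p b - c • p b₀) = 0 := this f1
      rw [dotProduct_sub, dotProduct_smul, f3, smul_zero, sub_zero] at t
      change p b ⬝ᵥ f = 0
      rw [dotProduct_comm, t])
    have t : v ⬝ᵥ f = 0 := this hv
    rw [dotProduct_comm, t]
  have a1 := Submodule.finrank_mono le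
  have a2 := Submodule.finrank_sup_add_finrank_inf_eq HA (LinearMap.ker (ev (p b₀)))
  have a3 := LinearMap.finrank_range_add_finrank_ker (ev (p b₀))
  have a4 : Module.finrank K (LinearMap.range (ev (p b₀))) ≤ 1 :=
    (Submodule.finrank_le _).trans (Module.finrank_self K).le
  have a5 := Submodule.finrank_le (HA ⊔ LinearMap.ker (ev (p b₀)))
  omega

end Pool.Agent.Lib.MP_087efe_co.DT
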